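import Pool.Agent.H58.FqJ

set_option autoImplicit false

namespace Pool.Agent.Results.MP_7607f9_an.Q1NoFactor

theorem result :
    ∃ a : ℚ → ℂ, (∀ q : ℚ, q ≤ 0 → a q = 0) ∧ Summable (fun q : ℚ => ‖a q‖) ∧
      ∀ b c : ℚ → ℂ, (∀ q : ℚ, q ≤ 0 → b q = 0) → (∀ q : ℚ, q ≤ 0 → c q = 0) →
        Summable (fun q : ℚ => ‖b q‖) → Summable (fun q : ℚ => ‖c q‖) →
        ¬ ∀ q : ℚ, a q = ∑' r : ℚ, b r * c (q - r) := by
  obtain ⟨a, sa, la, ha⟩ := Pool.Agent.H58.Fq.no_factor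
  exact ⟨a, sa, la, fun b c sb sc lb lc e => ha b c sb sc lb lc (funext e)⟩

end Pool.Agent.Results.MP_7607f9_an.Q1NoFactor
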