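import Pool.Agent.H88.QFac

set_option autoImplicit false

namespace Pool.Agent.Results.MP_7607f9_an.Q2

open Pool.Agent.H88.QFac

theorem result :
    (∀ a : Qp → ℂ, MemL1 (fun _ => 1) a →
      ∃ b₁ c₁ b₂ c₂ : Qp → ℂ, MemL1 (fun _ => 1) b₁ ∧ MemL1 (fun _ => 1) c₁ ∧
        MemL1 (fun _ => 1) b₂ ∧ MemL1 (fun _ => 1) c₂ ∧ a = conv b₁ c₁ + conv b₂ c₂) ∧
    (∀ a : Qp → ℂ, MemL1 (fun t => Real.exp (-(t.1 : ℝ) ^ 2)) a →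
      ∃ b₁ c₁ b₂ c₂ : Qp → ℂ, MemL1 (fun t => Real.exp (-(t.1 : ℝ) ^ 2)) b₁ ∧
        MemL1 (fun t => Real.exp (-(t.1 : ℝ) ^ 2)) c₁ ∧
        MemL1 (fun t => Real.exp (-(t.1 : ℝ) ^ 2)) b₂ ∧
        MemL1 (fun t => Real.exp (-(t.1 : ℝ) ^ 2)) c₂ ∧ a = conv b₁ c₁ + conv b₂ c₂) ∧
    (∀ a : Q1 → ℂ, MemL1T a →
      ∃ b₁ c₁ b₂ c₂ : Q1 → ℂ, MemL1T b₁ ∧ MemL1T c₁ ∧ MemL1T b₂ ∧ MemL1T c₂ ∧
        a = convT b₁ c₁ + convT b₂ c₂) := by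
  refine ⟨fun a ha => ?_, fun a ha => ?_, fun a ha => ?_⟩
  · obtain ⟨b, c, h1, h2⟩ := main adm_one a ha
    exact ⟨b 0, c 0, b 1, c 1, (h1 0).1, (h1 0).2, (h1 1).1, (h1 1).2, funext h2⟩
  · obtain ⟨b, c, h1, h2⟩ := main adm_gauss a ha
    exact ⟨b 0, c 0, b 1, c 1, (h1 0).1, (h1 0).2, (h1 1).1, (h1 1).2, funext h2⟩
  · obtain ⟨b, c, h1, h2⟩ := trunc a ha
    exact ⟨b 0, c 0, b 1, c 1, (h1 0).1, (h1 0).2, (h1 1).1, (h1 1).2, funext h2⟩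

end Pool.Agent.Results.MP_7607f9_an.Q2
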